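import Mathlib

set_option autoImplicit false
open Finset

namespace Pool.Agent.H423R2.IN4

section
variable {F K : Type} [Field F] [Field K] [Algebra F K] [CharP K 3]

theorem indep {θ : K} (hθ : ∀ a : F, θ ≠ algebraMap F K a) (α β : F)
    (h : algebraMap F K α * θ + algebraMap F K β = 0) : α = 0 ∧ β = 0 := by
  have hα : α = 0 := by
    by_contra hα
    apply hθ (-β / α)
    have h1 : algebraMap F K α ≠ 0 := by
      rwa [Ne, map_eq_zero_iff _ (algebraMap F K).injective]
    rw [map_div₀, map_neg]
    field_simp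
    linear_combination h
  refine ⟨hα, ?_⟩
  rw [hα, map_zero, zero_mul, zero_add] at h
  rwa [map_eq_zero_iff _ (algebraMap F K).injective] at h

theorem two {θ : K} (hθ : ∀ a : F, θ ≠ algebraMap F K a) (a b c d : F)
    (h : (θ - algebraMap F K a) * (θ - algebraMap F K b)
      = (θ - algebraMap F K c) * (θ - algebraMap F K d)) : a = c ∨ a = d := by
  have h1 := indep hθ (c + d - a - b) (a * b - c * d) (by
    simp only [map_sub, map_add, map_mul]
    linear_combination h)
  have h2 : (a - c) * (a - d) = 0 := by linear_combination (-a) * h1.1 - h1.2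
  rcases mul_eq_zero.mp h2 with h3 | h3
  · left; exact sub_eq_zero.mp h3
  · right; exact sub_eq_zero.mp h3

theorem three {θ : K} {s : F} (hs : θ ^ 2 = algebraMap F K s)
    (hθ : ∀ a : F, θ ≠ algebraMap F K a) (a b c : F)
    (h : (θ - algebraMap F K a) * ((θ - algebraMap F K b) * (θ - algebraMap F K c)) = θ ^ 3) :
    a * b * c = 0 := by
  have h3K : (3 : K) = 0 := by exact_mod_cast CharP.cast_eq_zero K 3
  have h3 : (3 : F) = 0 := by
    apply (algebraMap F K).injective
    rw [map_zero, map_ofNat]; exact h3K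
  obtain ⟨e, he⟩ : ∃ e, e = a + b + c := ⟨_, rfl⟩
  have h1 := indep hθ (a * b + b * c + c * a) (-(e * s) - a * b * c) (by
    rw [he]
    simp only [map_sub, map_add, map_mul, map_neg]
    linear_combination h + (algebraMap F K a + algebraMap F K b + algebraMap F K c) * hs)
  obtain ⟨e2, e3⟩ := h1
  by_cases he0 : e = 0
  · rw [he0] at e3
    linear_combination -e3
  exfalso
  -- discriminant
  obtain ⟨D, hD⟩ : ∃ D, D = (a - b) * (b - c) * (c - a) := ⟨_, rfl⟩
  have hDD : D ^ 2 = e ^ 4 * s := by
    have g : D ^ 2 = (a + b + c) ^ 2 * (a * b + b * c + c * a) ^ 2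
        - 4 * (a * b + b * c + c * a) ^ 3 - 4 * (a + b + c) ^ 3 * (a * b * c)
        + 18 * (a + b + c) * (a * b + b * c + c * a) * (a * b * c) - 27 * (a * b * c) ^ 2 := by
      rw [hD]; ring
    rw [e2, ← he] at g
    rw [g]
    linear_combination 4 * e ^ 3 * e3 + (e ^ 4 * s - 9 * (a * b * c) ^ 2) * h3
  have hs' : s = (D / e ^ 2) ^ 2 := by
    rw [div_pow, hDD]; field_simp
  have h5 : (θ - algebraMap F K (D / e ^ 2)) * (θ + algebraMap F K (D / e ^ 2)) = 0 := by
    have h6 : algebraMap F K s = (algebraMap F K (D / e ^ 2)) ^ 2 := by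
      rw [← map_pow, ← hs']
    linear_combination hs + h6
  rcases mul_eq_zero.mp h5 with h7 | h7
  · exact hθ _ (sub_eq_zero.mp h7)
  · apply hθ (-(D / e ^ 2))
    rw [map_neg]
    exact eq_neg_of_add_eq_zero_left h7

end
end Pool.Agent.H423R2.IN4
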