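import Mathlib
import Pool.Agent.H423R2.IN4.Core

set_option autoImplicit false
open Finset

namespace Pool.Agent.H423R2.IN4

section
variable {F K : Type} [Field F] [Field K] [Algebra F K] [CharP K 3]

theorem ms0 {θ : K} (hθ : ∀ a : F, θ ≠ algebraMap F K a) (p q : Multiset F)
    (hd : ∀ r ∈ p, r ∉ q) (hc : p.card = q.card) (h1 : 1 ≤ p.card) (h2 : p.card ≤ 2)
    (h : (p.map fun r => θ - algebraMap F K r).prod
      = (q.map fun r => θ - algebraMap F K r).prod) : False := by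
  have h3 : p.card = 1 ∨ p.card = 2 := by omega
  rcases h3 with h3 | h3
  · obtain ⟨a, rfl⟩ := Multiset.card_eq_one.mp h3
    obtain ⟨b, rfl⟩ := Multiset.card_eq_one.mp (hc.symm.trans h3)
    simp only [Multiset.map_singleton, Multiset.prod_singleton] at h
    have : a = b := (algebraMap F K).injective (by linear_combination -h)
    exact hd a (by simp) (by simp [this])
  · obtain ⟨a, b, rfl⟩ := Multiset.card_eq_two.mp h3
    obtain ⟨c, d, rfl⟩ := Multiset.card_eq_two.mp (hc.symm.trans h3)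
    simp only [Multiset.insert_eq_cons, Multiset.map_cons, Multiset.map_singleton,
      Multiset.prod_cons, Multiset.prod_singleton] at h
    rcases two hθ a b c d h with h4 | h4
    · exact hd a (by simp) (by simp [h4])
    · exact hd a (by simp) (by simp [h4])

theorem ms3 {θ : K} {s : F} (hs : θ ^ 2 = algebraMap F K s)
    (hθ : ∀ a : F, θ ≠ algebraMap F K a) (p : Multiset F)
    (hp : ∀ r ∈ p, r ≠ 0) (hc : p.card = 3)
    (h : (p.map fun r => θ - algebraMap F K r).prod = θ ^ 3) : False := by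
  obtain ⟨a, b, c, rfl⟩ := Multiset.card_eq_three.mp hc
  simp only [Multiset.insert_eq_cons, Multiset.map_cons, Multiset.map_singleton,
    Multiset.prod_cons, Multiset.prod_singleton] at h
  have := three hs hθ a b c h
  have ha := hp a (by simp)
  have hb := hp b (by simp)
  have hc' := hp c (by simp)
  exact mul_ne_zero (mul_ne_zero ha hb) hc' this

theorem main [Fintype F] [Fintype K] {θ : K} {s : F} (hs : θ ^ 2 = algebraMap F K s)
    (hθ : ∀ a : F, θ ≠ algebraMap F K a) (n M0 : ℕ) (hM0 : Fintype.card K = 3 * M0)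
    (hn : n = 3 * (Fintype.card K - 1)) :
    ∃ A : Finset (ZMod n), A.card = Fintype.card F - 1 ∧
      ∀ c : ZMod n → ℤ, 1 ≤ ∑ a ∈ A, |c a| → ∑ a ∈ A, |c a| ≤ 4 → ∑ a ∈ A, c a • a ≠ 0 := by
  classical
  have hKpos : 1 < Fintype.card K := Fintype.one_lt_card
  obtain ⟨N, hN⟩ : ∃ N, N = Fintype.card K - 1 := ⟨_, rfl⟩
  have hNpos : 0 < N := by omega
  have hcardU : Nat.card Kˣ = N := by
    rw [Nat.card_eq_fintype_card, Fintype.card_units, hN]
  obtain ⟨g, hg⟩ := IsCyclic.exists_generator (α := Kˣ)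
  have hord : orderOf g = N := by rw [orderOf_eq_card_of_forall_mem_zpowers hg, hcardU]
  have hu0 : ∀ r : F, θ - algebraMap F K r ≠ 0 := fun r h => hθ r (sub_eq_zero.mp h)
  have hθ0 : θ ≠ 0 := by
    have := hθ 0
    rwa [map_zero] at this
  obtain ⟨u, hu⟩ : ∃ u : F → Kˣ, ∀ r, ((u r : Kˣ) : K) = θ - algebraMap F K r :=
    ⟨fun r => Units.mk0 _ (hu0 r), fun r => rfl⟩
  obtain ⟨w, hw⟩ : ∃ w : Kˣ, (w : K) = θ := ⟨Units.mk0 θ hθ0, rfl⟩
  have hL : ∀ r, ∃ L : ℤ, g ^ L = u r := fun r => Subgroup.mem_zpowers_iff.mp (hg (u r))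
  choose L hL using hL
  obtain ⟨l, hl⟩ : ∃ l : ℤ, g ^ l = w := Subgroup.mem_zpowers_iff.mp (hg w)
  obtain ⟨t, ht⟩ : ∃ t : ℤ, t = -(M0 : ℤ) - l := ⟨_, rfl⟩
  have hgN : g ^ ((N : ℕ) : ℤ) = 1 := by rw [zpow_natCast, ← hord]; exact pow_orderOf_eq_one g
  have ht3 : g ^ (3 * t + 1) * w ^ (3 : ℤ) = 1 := by
    rw [← hl, ← zpow_mul, ← zpow_add]
    have : 3 * t + 1 + l * 3 = -((N : ℕ) : ℤ) := by
      have hNz : (N : ℤ) = 3 * M0 - 1 := by omega
      rw [ht, hNz]
      ring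
    rw [this, zpow_neg, hgN, inv_one]
  obtain ⟨a, ha⟩ : ∃ a : F → ZMod n, ∀ r, a r = ((1 + 3 * (L r + t) : ℤ) : ZMod n) :=
    ⟨_, fun r => rfl⟩
  have hn3 : (n : ℤ) = 3 * N := by rw [hn, hN]; push_cast; ring
  have hgz : ∀ x : ℤ, (N : ℤ) ∣ x → g ^ x = 1 := by
    rintro x ⟨y, rfl⟩
    rw [zpow_mul, hgN, one_zpow]
  have hainj : Function.Injective a := by
    intro r r' h
    rw [ha, ha, ZMod.intCast_eq_intCast_iff_dvd_sub, hn3] at h
    have h1 : (N : ℤ) ∣ L r' - L r := by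
      obtain ⟨y, hy⟩ := h
      exact ⟨y, by linarith⟩
    have h2 := hgz _ h1
    rw [zpow_sub, hL, hL, mul_inv_eq_one] at h2
    have h3 : ((u r' : Kˣ) : K) = u r := by rw [h2]
    rw [hu, hu] at h3
    exact (algebraMap F K).injective (by linear_combination h3)
  refine ⟨(univ.erase (0 : F)).image a, ?_, ?_⟩
  · rw [card_image_of_injective _ hainj, card_erase_of_mem (mem_univ _), card_univ]
  intro c hc1 hc2 hc0
  rw [sum_image (fun x _ y _ h => hainj h)] at hc1 hc2 hc0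
  obtain ⟨R, hR⟩ : ∃ R, R = (univ.erase (0 : F)) := ⟨_, rfl⟩
  rw [← hR] at hc1 hc2 hc0
  have hR0 : ∀ r ∈ R, r ≠ 0 := by
    intro r hr; rw [hR] at hr; exact (mem_erase.mp hr).1
  obtain ⟨d, hd⟩ : ∃ d : F → ℤ, ∀ r, d r = c (a r) := ⟨_, fun r => rfl⟩
  simp only [← hd] at hc1 hc2 hc0
  obtain ⟨P, hP⟩ : ∃ P : ℕ, P = ∑ r ∈ R, (d r).toNat := ⟨_, rfl⟩
  obtain ⟨Q, hQ⟩ : ∃ Q : ℕ, Q = ∑ r ∈ R, (-d r).toNat := ⟨_, rfl⟩
  have hPQ1 : (P : ℤ) + Q = ∑ r ∈ R, |d r| := by
    rw [hP, hQ]; push_cast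
    rw [← sum_add_distrib]
    apply sum_congr rfl
    intro r _
    rcases abs_cases (d r) with h | h <;> omega
  have hPQ2 : (P : ℤ) - Q = ∑ r ∈ R, d r := by
    rw [hP, hQ]; push_cast
    rw [← sum_sub_distrib]
    apply sum_congr rfl
    intro r _
    omega
  obtain ⟨S, hS⟩ : ∃ S, S = ∑ r ∈ R, d r := ⟨_, rfl⟩
  obtain ⟨T, hT⟩ : ∃ T, T = ∑ r ∈ R, d r * (L r + t) := ⟨_, rfl⟩
  have hE : ((S + 3 * T : ℤ) : ZMod n) = 0 := by
    rw [← hc0, hS, hT]
    push_cast
    rw [mul_sum, ← sum_add_distrib]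
    apply sum_congr rfl
    intro r _
    rw [ha, zsmul_eq_mul]
    push_cast
    ring
  rw [ZMod.intCast_zmod_eq_zero_iff_dvd, hn3] at hE
  obtain ⟨y, hy⟩ := hE
  obtain ⟨S', hS'⟩ : ∃ S', S = 3 * S' := ⟨N * y - T, by linarith⟩
  have hdiv : (N : ℤ) ∣ S' + T := ⟨y, by linarith⟩
  have hprod : ∏ r ∈ R, (u r) ^ (d r) = w ^ (3 * S') := by
    have e1 : g ^ (S' + T) = 1 := hgz _ hdiv
    have e2 : g ^ T = (∏ r ∈ R, (u r) ^ (d r)) * g ^ (t * S) := by
      rw [hT, hS, mul_sum]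
      have : ∀ r, (u r) ^ (d r) = g ^ (L r * d r) := by intro r; rw [zpow_mul, hL]
      simp only [this]
      have z1 : ∀ (f : F → ℤ) (R' : Finset F), g ^ (∑ r ∈ R', f r) = ∏ r ∈ R', g ^ (f r) := by
        intro f R'
        induction R' using Finset.induction_on with
        | empty => simp
        | insert x R'' hx ih => rw [sum_insert hx, prod_insert hx, zpow_add, ih]
      rw [z1, z1, ← prod_mul_distrib]
      apply prod_congr rfl
      intro r _
      rw [← zpow_add]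
      congr 1
      ring
    rw [zpow_add, e2] at e1
    have e3 : g ^ (3 * t + 1) = w ^ (-3 : ℤ) := by
      rw [zpow_neg]; exact eq_inv_of_mul_eq_one_left ht3
    have e4 : g ^ S' * g ^ (t * S) = w ^ (-(3 * S')) := by
      rw [← zpow_add]
      have : S' + t * S = (3 * t + 1) * S' := by rw [hS']; ring
      rw [this, zpow_mul, e3, ← zpow_mul]
      congr 1
      ring
    have e5 : (∏ r ∈ R, (u r) ^ (d r)) * (g ^ S' * g ^ (t * S)) = 1 := by
      rw [← e1]
      simp only [mul_comm, mul_left_comm, mul_assoc]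
    rw [e4, zpow_neg] at e5
    exact mul_inv_eq_one.mp e5
  have hsplit : ∏ r ∈ R, (u r) ^ ((d r).toNat) = w ^ (3 * S') * ∏ r ∈ R, (u r) ^ ((-d r).toNat) := by
    rw [← hprod, ← prod_mul_distrib]
    apply prod_congr rfl
    intro r _
    rw [← zpow_natCast, ← zpow_natCast, ← zpow_add]
    congr 1
    omega
  -- multisets
  obtain ⟨mp, hmp⟩ : ∃ mp : Multiset F, mp = ∑ r ∈ R, (d r).toNat • ({r} : Multiset F) := ⟨_, rfl⟩
  obtain ⟨mq, hmq⟩ : ∃ mq : Multiset F, mq = ∑ r ∈ R, (-d r).toNat • ({r} : Multiset F) := ⟨_, rfl⟩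
  have hcard : ∀ f : F → ℕ, (∑ r ∈ R, f r • ({r} : Multiset F)).card = ∑ r ∈ R, f r := by
    intro f
    rw [Multiset.card_sum]
    simp
  have hmem : ∀ (f : F → ℕ) (x : F), x ∈ (∑ r ∈ R, f r • ({r} : Multiset F)) →
      x ∈ R ∧ f x ≠ 0 := by
    intro f x hx
    rw [Multiset.mem_sum] at hx
    obtain ⟨r, hr, hx⟩ := hx
    by_cases hf : f r = 0
    · rw [hf, zero_smul] at hx
      exact absurd hx (Multiset.notMem_zero x)
    · rw [Multiset.mem_nsmul] at hx
      have : x = r := by simpa using hx.2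
      rw [this]
      exact ⟨hr, hf⟩
  have hprodm : ∀ f : F → ℕ, ((∑ r ∈ R, f r • ({r} : Multiset F)).map
      fun r => θ - algebraMap F K r).prod = ((∏ r ∈ R, (u r) ^ (f r) : Kˣ) : K) := by
    intro f
    rw [Units.coe_prod]
    have : ∀ R' : Finset F, ((∑ r ∈ R', f r • ({r} : Multiset F)).map
      fun r => θ - algebraMap F K r).prod = ∏ r ∈ R', ((u r ^ f r : Kˣ) : K) := by
      intro R'
      induction R' using Finset.induction_on with
      | empty => simp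
      | insert x R'' hx ih =>
        rw [sum_insert hx, prod_insert hx, Multiset.map_add, Multiset.prod_add, ih]
        congr 1
        rw [Multiset.map_nsmul, Multiset.prod_nsmul, Units.val_pow_eq_pow_val, hu]
        simp
    exact this R
  have hPc : mp.card = P := by rw [hmp, hcard, hP]
  have hQc : mq.card = Q := by rw [hmq, hcard, hQ]
  have hdisj : ∀ r ∈ mp, r ∉ mq := by
    intro r h1 h2
    rw [hmp] at h1
    rw [hmq] at h2
    have := (hmem _ r h1).2
    have := (hmem _ r h2).2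
    omega
  have hp0 : ∀ r ∈ mp, r ≠ 0 := by
    intro r h; rw [hmp] at h; exact hR0 r (hmem _ r h).1
  have hq0 : ∀ r ∈ mq, r ≠ 0 := by
    intro r h; rw [hmq] at h; exact hR0 r (hmem _ r h).1
  have hmain : (mp.map fun r => θ - algebraMap F K r).prod
      = ((w ^ (3 * S') : Kˣ) : K) * (mq.map fun r => θ - algebraMap F K r).prod := by
    rw [hmp, hmq, hprodm, hprodm, hsplit, Units.val_mul]
  have hcases : (P = Q ∧ 1 ≤ P ∧ P ≤ 2 ∧ S' = 0) ∨ (P = 3 ∧ Q = 0 ∧ S' = 1) ∨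
      (P = 0 ∧ Q = 3 ∧ S' = -1) := by
    rw [← hPQ1] at hc1 hc2
    have hPQS : (P : ℤ) - Q = 3 * S' := by rw [hPQ2, ← hS, hS']
    have hS3 : S' = 0 ∨ S' = 1 ∨ S' = -1 := by omega
    rcases hS3 with h | h | h
    · left; rw [h] at hPQS; omega
    · right; left; rw [h] at hPQS; omega
    · right; right; rw [h] at hPQS; omega
  rcases hcases with ⟨h1, h2, h3, h4⟩ | ⟨h1, h2, h4⟩ | ⟨h1, h2, h4⟩
  · rw [h4] at hmain
    simp only [mul_zero, zpow_zero, Units.val_one, one_mul] at hmain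
    exact ms0 hθ mp mq hdisj (by omega) (by omega) (by omega) hmain
  · have hq : mq = 0 := Multiset.card_eq_zero.mp (by omega)
    rw [h4, hq] at hmain
    simp only [Multiset.map_zero, Multiset.prod_zero, mul_one] at hmain
    refine ms3 hs hθ mp hp0 (by omega) ?_
    rw [hmain, ← hw]
    norm_cast
  · have hp : mp = 0 := Multiset.card_eq_zero.mp (by omega)
    rw [h4, hp] at hmain
    simp only [Multiset.map_zero, Multiset.prod_zero] at hmain
    refine ms3 hs hθ mq hq0 (by omega) ?_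
    have e1 : (3 * (-1) : ℤ) = -3 := by norm_num
    rw [e1, zpow_neg] at hmain
    have e2 : ((w ^ (3 : ℤ) : Kˣ) : K) = θ ^ 3 := by rw [← hw]; norm_cast
    have e3 : ((w ^ (3 : ℤ) : Kˣ) : K) * (((w ^ (3 : ℤ))⁻¹ : Kˣ) : K) = 1 := by
      rw [← Units.val_mul, mul_inv_cancel, Units.val_one]
    rw [← e2]
    calc _ = (((w ^ (3 : ℤ) : Kˣ) : K) * (((w ^ (3 : ℤ))⁻¹ : Kˣ) : K)) *
          (mq.map fun r => θ - algebraMap F K r).prod := by rw [e3, one_mul]
      _ = ((w ^ (3 : ℤ) : Kˣ) : K) * ((((w ^ (3 : ℤ))⁻¹ : Kˣ) : K) *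
          (mq.map fun r => θ - algebraMap F K r).prod) := by ring
      _ = _ := by rw [← hmain, mul_one]

end
end Pool.Agent.H423R2.IN4
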