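import Mathlib
import Pool.Agent.H423R2.IN4.Main

set_option autoImplicit false
open Finset Polynomial

namespace Pool.Agent.H423R2.IN4

theorem exists_set (k : ℕ) (hk : 1 ≤ k) :
    ∃ A : Finset (ZMod (3 * (9 ^ k - 1))), A.card = 3 ^ k - 1 ∧
      ∀ c : ZMod (3 * (9 ^ k - 1)) → ℤ, 1 ≤ ∑ a ∈ A, |c a| → ∑ a ∈ A, |c a| ≤ 4 →
        ∑ a ∈ A, c a • a ≠ 0 := by
  haveI : Fact (Nat.Prime 3) := ⟨by norm_num⟩
  let F := GaloisField 3 k
  letI : Fintype F := Fintype.ofFinite F
  have hcF : Fintype.card F = 3 ^ k := by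
    rw [← Nat.card_eq_fintype_card]; exact GaloisField.card 3 k (by omega)
  have hchar : ringChar F ≠ 2 := by
    rw [ringChar.eq F 3]; norm_num
  obtain ⟨s, hs⟩ := FiniteField.exists_nonsquare hchar
  obtain ⟨f, hf⟩ : ∃ f : F[X], f = X ^ 2 - C s := ⟨_, rfl⟩
  have hmonic : f.Monic := by rw [hf]; exact monic_X_pow_sub_C s (by norm_num)
  have hdeg : f.natDegree = 2 := by rw [hf]; exact natDegree_X_pow_sub_C
  have hirr : Irreducible f := by
    rw [hmonic.irreducible_iff_roots_eq_zero_of_degree_le_three (by rw [hdeg]) (by rw [hdeg]; norm_num)]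
    rw [Multiset.eq_zero_iff_forall_notMem]
    intro a ha
    have h1 := (mem_roots'.mp ha).2
    rw [hf] at h1
    simp only [IsRoot.def, eval_sub, eval_pow, eval_X, eval_C] at h1
    exact hs ⟨a, by linear_combination -h1⟩
  haveI : Fact (Irreducible f) := ⟨hirr⟩
  let K := AdjoinRoot f
  haveI : Module.Finite F K := (AdjoinRoot.powerBasis hirr.ne_zero).finite
  haveI : Finite K := Module.finite_of_finite F
  letI : Fintype K := Fintype.ofFinite K
  have hfin : Module.finrank F K = 2 := by
    rw [(AdjoinRoot.powerBasis hirr.ne_zero).finrank, AdjoinRoot.powerBasis_dim, hdeg]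
  have hcK : Fintype.card K = 9 ^ k := by
    rw [Module.card_eq_pow_finrank (K := F) (V := K), hfin, hcF, ← pow_mul, mul_comm, pow_mul]
    norm_num
  haveI : CharP K 3 := charP_of_injective_algebraMap (algebraMap F K).injective 3
  have hroot : (AdjoinRoot.root f : K) ^ 2 = algebraMap F K s := by
    have h1 : aeval (AdjoinRoot.root f) f = 0 := by
      rw [AdjoinRoot.aeval_eq, AdjoinRoot.mk_self]
    have h2 : ∀ (z : K) (f' : F[X]), f' = X ^ 2 - C s → aeval z f' = z ^ 2 - algebraMap F K s := by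
      intro z f' h
      rw [h]
      simp only [map_sub, map_pow, aeval_X, aeval_C]
    exact sub_eq_zero.mp ((h2 _ f hf).symm.trans h1)
  have hnot : ∀ a : F, (AdjoinRoot.root f : K) ≠ algebraMap F K a := by
    intro a ha
    rw [ha, ← map_pow] at hroot
    have := (algebraMap F K).injective hroot
    exact hs ⟨a, by rw [← this]; ring⟩
  have h := main (F := F) (K := K) hroot hnot (3 * (9 ^ k - 1)) (3 ^ (2 * k - 1))
    (by rw [hcK, ← pow_succ']
        have : 2 * k - 1 + 1 = 2 * k := by omega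
        rw [this, pow_mul]; norm_num)
    (by rw [hcK])
  rw [hcF] at h
  exact h

end Pool.Agent.H423R2.IN4
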